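import Pool.Agent.H.MP_0deb22_lc.C

namespace Pool.Agent.Results.MP_0deb22_lc.No

/-- words without two consecutive ones (`true` is the digit `1`) -/
def Valid (x : List Bool) : Prop := x.IsChain (fun a b => ¬ (a = true ∧ b = true))

/-- the value `∑ e_j F_j` of the word `e_r … e_2` (most significant digit first) -/
def val (x : List Bool) : ℕ :=
  ∑ j ∈ Finset.range x.length, if x.reverse.getD j false then Nat.fib (j + 2) else 0

/-- the Fibonacci-Thue-Morse sequence: parity of the number of terms of the Zeckendorf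
representation -/
def t (i : ℕ) : ℕ := (Nat.zeckendorf i).length % 2

/-- least number of states of a Fibonacci-DFAO generating `i ↦ t (i + c)` -/
noncomputable def S (c : ℕ) : ℕ :=
  sInf {n : ℕ | ∃ (δ : Fin n → Bool → Option (Fin n)) (q0 : Fin n) (τ : Fin n → ℕ),
    ∀ x : List Bool, Valid x → ∃ q, x.foldlM δ q0 = some q ∧ τ q = t (val x + c)}

open Pool.Agent.H.MP_0deb22_lc

lemma vl_sum (w : List Bool) : ∀ s, vl s w =
    ∑ j ∈ Finset.range w.length, if w.getD j false then Nat.fib (j + s) else 0 := by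
  induction w with
  | nil => intro s; rfl
  | cons e w ih =>
    intro s
    rw [List.length_cons, Finset.sum_range_succ', vl, ih, add_comm]
    simp only [List.getD_cons_succ, List.getD_cons_zero, zero_add, add_assoc, add_comm 1 s]

lemma S_le (j : ℕ) : S (Nat.fib (15 * j + 1)) ≤ 8 * (TA j).1.length := by
  obtain ⟨n, hn, δ, q0, τ, h⟩ := auto j
  refine le_trans (Nat.sInf_le ?_) hn
  refine ⟨δ, q0, τ, fun x hx => ?_⟩
  have hv : V x.reverse := List.isChain_reverse.2 (hx.imp fun _ _ h1 h2 => h1 h2.symm)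
  have := h x hv
  rwa [vl_sum, List.length_reverse] at this

theorem result : ∀ κ : ℝ, 0 < κ → ∀ c0 : ℕ, ∃ c : ℕ, c0 ≤ c ∧ (S c : ℝ) < κ * c := by
  intro κ hκ c0
  obtain ⟨j0, hj⟩ := exists_pow_lt_of_lt_one (show 0 < κ / 16 by positivity)
    (show (1596 / 1597 : ℝ) < 1 by norm_num)
  set j := j0 + c0 + 1 with hj'
  have h1 : (1596 / 1597 : ℝ) ^ j ≤ (1596 / 1597) ^ j0 :=
    pow_le_pow_of_le_one (by norm_num) (by norm_num) (by omega)
  have h2 : 15 * j + 1 ≤ Nat.fib (15 * j + 1) := Nat.le_fib_self (by omega)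
  refine ⟨Nat.fib (15 * j + 1), by omega, ?_⟩
  have h3 : (S (Nat.fib (15 * j + 1)) : ℝ) ≤ 8 * (TA j).1.length := by exact_mod_cast S_le j
  have h4 := (TA_len j).1
  have h5 : (Nat.fib (15 * j + 2) : ℝ) ≤ 2 * Nat.fib (15 * j + 1) := by
    have a := Nat.fib_add_two (n := 15 * j)
    have b : Nat.fib (15 * j) ≤ Nat.fib (15 * j + 1) := Nat.fib_le_fib_succ
    exact_mod_cast (by omega : Nat.fib (15 * j + 2) ≤ 2 * Nat.fib (15 * j + 1))
  have h6 : (0 : ℝ) < Nat.fib (15 * j + 1) := by exact_mod_cast (by omega : 0 < Nat.fib (15 * j + 1))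
  have h7 : (0 : ℝ) < (1596 / 1597) ^ j := by positivity
  have h8 := mul_le_mul_of_nonneg_left h5 h7.le
  have h9 := mul_lt_mul_of_pos_right (h1.trans_lt hj) h6
  generalize ((TA j).1.length : ℝ) = X at *
  generalize ((1596 / 1597 : ℝ)) ^ j = θ at *
  linarith

end Pool.Agent.Results.MP_0deb22_lc.No
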